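import Pool.Agent.Helper97.FS.Stmts

/-! Module E6: the kernel with coefficients `ww (v m / t)`. -/

set_option autoImplicit false

namespace Pool.Agent.Helper97.FS

open Finset MeasureTheory Filter Topology UnitAddTorus
open scoped ComplexConjugate
open Pool.Agent.Helper97.Sub

lemma e6_vol (a b : ℝ) :
    (volume (Set.Ico a (a + 1) ∩ Set.Ico b (b + 1))).toReal = max (1 - |a - b|) 0 := by
  rw [Set.Ico_inter_Ico, Real.volume_Ico, ENNReal.toReal_ofReal']
  congr 1
  rcases le_total a b with h | h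
  · have h1 : (a + 1) ⊓ (b + 1) = a + 1 := min_eq_left (by linarith)
    have h2 : a ⊔ b = b := max_eq_right h
    rw [h1, h2, abs_of_nonpos (by linarith)]
    ring
  · have h1 : (a + 1) ⊓ (b + 1) = b + 1 := min_eq_right (by linarith)
    have h2 : a ⊔ b = a := max_eq_left h
    rw [h1, h2, abs_of_nonneg (by linarith)]
    ring

/-- unit square -/
def e6_Q (a : ℝ) : Set (ℝ × ℝ) := Set.Ico a (a + 1) ×ˢ Set.Ico a (a + 1)

lemma e6_Q_meas (a : ℝ) : MeasurableSet (e6_Q a) := measurableSet_Ico.prod measurableSet_Ico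

lemma e6_Q_fin (a b : ℝ) : volume (e6_Q a ∩ e6_Q b) ≠ ⊤ := by
  refine ne_top_of_le_ne_top ?_ (measure_mono (Set.inter_subset_left : e6_Q a ∩ e6_Q b ⊆ e6_Q a))
  rw [e6_Q, Measure.volume_eq_prod, Measure.prod_prod, Real.volume_Ico]
  exact ENNReal.mul_ne_top ENNReal.ofReal_ne_top ENNReal.ofReal_ne_top

lemma e6_Q_vol (a b : ℝ) : volume.real (e6_Q a ∩ e6_Q b) = ww (a - b) := by
  have h : e6_Q a ∩ e6_Q b = (Set.Ico a (a + 1) ∩ Set.Ico b (b + 1)) ×ˢ
      (Set.Ico a (a + 1) ∩ Set.Ico b (b + 1)) := by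
    rw [e6_Q, e6_Q, Set.prod_inter_prod]
  rw [Measure.real, h, Measure.volume_eq_prod, Measure.prod_prod, ENNReal.toReal_mul, e6_vol, ww]
  ring

/-- indicator of the unit square -/
noncomputable def e6_E (a : ℝ) (z : ℝ × ℝ) : ℂ := (e6_Q a).indicator (fun _ => (1 : ℂ)) z

lemma e6_E_mul (a b : ℝ) (z : ℝ × ℝ) :
    e6_E a z * conj (e6_E b z) = (e6_Q a ∩ e6_Q b).indicator (fun _ => (1 : ℂ)) z := by
  unfold e6_E
  by_cases ha : z ∈ e6_Q a <;> by_cases hb : z ∈ e6_Q b <;> simp [ha, hb]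

lemma e6_E_int (a b : ℝ) : Integrable (fun z => e6_E a z * conj (e6_E b z)) := by
  have : (fun z => e6_E a z * conj (e6_E b z))
      = (e6_Q a ∩ e6_Q b).indicator (fun _ => (1 : ℂ)) := by
    funext z; exact e6_E_mul a b z
  rw [this, integrable_indicator_iff ((e6_Q_meas a).inter (e6_Q_meas b))]
  exact integrableOn_const (e6_Q_fin a b)

lemma e6_E_integral (a b : ℝ) : ∫ z, e6_E a z * conj (e6_E b z) = ((ww (a - b) : ℝ) : ℂ) := by
  have : (fun z => e6_E a z * conj (e6_E b z))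
      = (e6_Q a ∩ e6_Q b).indicator (fun _ => (1 : ℂ)) := by
    funext z; exact e6_E_mul a b z
  rw [this, integral_indicator_const _ ((e6_Q_meas a).inter (e6_Q_meas b)), e6_Q_vol]
  simp

lemma e6_pos {ι : Type*} (S : Finset ι) (c : ι → ℂ) (s : ι → ℝ) :
    0 ≤ (∑ m ∈ S, ∑ m' ∈ S, c m * conj (c m') * ((ww (s m - s m') : ℝ) : ℂ)).re := by
  have h : ∑ m ∈ S, ∑ m' ∈ S, c m * conj (c m') * ((ww (s m - s m') : ℝ) : ℂ)
      = ∫ z, ((‖∑ m ∈ S, c m * e6_E (s m) z‖ ^ 2 : ℝ) : ℂ) := by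
    have h1 : ∀ z, ((‖∑ m ∈ S, c m * e6_E (s m) z‖ ^ 2 : ℝ) : ℂ)
        = ∑ m ∈ S, ∑ m' ∈ S, c m * conj (c m') * (e6_E (s m) z * conj (e6_E (s m') z)) := by
      intro z
      rw [← Complex.normSq_eq_norm_sq, ← Complex.mul_conj, map_sum, Finset.sum_mul_sum]
      refine Finset.sum_congr rfl fun m _ => Finset.sum_congr rfl fun m' _ => ?_
      rw [map_mul]; ring
    simp_rw [h1]
    rw [integral_finsetSum]
    · refine Finset.sum_congr rfl fun m _ => ?_
      rw [integral_finsetSum]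
      · refine Finset.sum_congr rfl fun m' _ => ?_
        rw [integral_const_mul, e6_E_integral]
      · intro m' _
        exact (e6_E_int (s m) (s m')).const_mul _
    · intro m _
      refine integrable_finsetSum _ fun m' _ => ?_
      exact (e6_E_int (s m) (s m')).const_mul _
  rw [h, integral_complex_ofReal, Complex.ofReal_re]
  exact integral_nonneg fun z => by positivity

lemma e6_ww_neg (s : ℝ) : ww (-s) = ww s := by
  unfold ww; rw [abs_neg]

theorem st_E6 (h : ST_E1) : ST_E6 := by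
  intro n v t ht
  refine h n (fun m => ((ww (v m / t) : ℝ) : ℂ)) ?_ ?_ ?_
  · intro m
    rw [Complex.conj_ofReal, map_neg, neg_div, e6_ww_neg]
  · intro S c
    have := e6_pos S c (fun m => v m / t)
    refine le_of_le_of_eq this ?_
    congr 1
    refine Finset.sum_congr rfl fun m _ => Finset.sum_congr rfl fun m' _ => ?_
    rw [map_sub, ← e6_ww_neg]
    congr 3
    ring
  · simp [ww]

end Pool.Agent.Helper97.FS
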