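import Pool.Agent.Helper5.FS.Stmts

set_option autoImplicit false

open Finset

namespace Pool.Agent.Helper5.FS

theorem st_FIN (h1 : ST_CRS) (h2 : ST_PSI) (h3 : ST_PAR) (h4 : ST_NUM) : ST_FIN := by
  intro n E b hn hb
  refine ⟨?_, ?_⟩
  · intro q hq hP m hm
    obtain ⟨s, hs1, hs2⟩ := h4 n m q hq hn hm
    refine h3 n m q s E b hb hq hs1 hs2 ?_
    intro P hPt hPi _
    obtain ⟨Q, hQ1, hQ2, hQ3, hQ4⟩ := h1 n E P hPt hPi
    exact ⟨Q, hQ1, hQ2, hQ3, hP Q hQ1 hQ2 hQ4⟩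
  · intro T hT P hPt hPi hPc
    exact h2 n T E P hT hPt hPi hPc

end Pool.Agent.Helper5.FS
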