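import Pool.Agent.Helper97.FS.Stmts

/-! Module IDN: the quadratic identity up to `C Φ θ^(-k/2)`. -/

set_option autoImplicit false

namespace Pool.Agent.Helper97.FS

open Finset MeasureTheory Filter Topology UnitAddTorus
open scoped ComplexConjugate
open Pool.Agent.Helper97.Sub

lemma idn_zc_cont : Continuous (fun ω : AddCircle (1 : ℝ) => zc ω) := by
  unfold zc
  exact Complex.continuous_conj.comp (fourier 1).continuous

lemma idn_TS_cont {d : ℕ} (G : List (Fin d) → ℂ) (w : ℕ) (V : List (Fin d)) :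
    Continuous (fun ω : AddCircle (1 : ℝ) => TS G w (zc ω) V) := by
  unfold TS PS
  refine continuous_finsetSum _ fun l _ => ?_
  by_cases h : l + w ≤ V.length
  · simp only [h, if_true]
    exact continuous_const.mul (idn_zc_cont.pow l)
  · simp only [h, if_false]
    exact continuous_const

lemma idn_WS_cont {d : ℕ} (y E : AddCircle (1 : ℝ) → Fin d → ℂ)
    (hy : ∀ c, Continuous (fun ω => y ω c)) (hE : ∀ c, Continuous (fun ω => E ω c))
    (V : List (Fin d)) : Continuous (fun ω => WS (y ω) (E ω) V) := by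
  induction V with
  | nil => simp only [WS]; exact continuous_const
  | cons c V ih =>
    simp only [WS]
    exact (hE c).add ((hy c).mul ih)

lemma idn_tp_cont (N : ℕ) (φ : ℤ → ℂ) : Continuous (fun ω => tp N φ ω) := by
  unfold tp
  exact continuous_finsetSum _ fun j _ => continuous_const.mul (fourier j).continuous

lemma idn_int {E : Type*} [NormedAddCommGroup E] (f : AddCircle (1 : ℝ) → E) (hf : Continuous f) :
    Integrable f AddCircle.haarAddCircle :=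
  hf.integrable_of_hasCompactSupport (HasCompactSupport.of_compactSpace f)

lemma idn_point (P Q : ℂ) (ε : ℝ) (hε : 0 < ε) :
    |‖P‖ ^ 2 - ‖Q‖ ^ 2| ≤ ε * ‖P‖ ^ 2 + (1 / ε + 1) * ‖P - Q‖ ^ 2 := by
  have h1 : |‖P‖ - ‖Q‖| ≤ ‖P - Q‖ := abs_norm_sub_norm_le P Q
  have hP := norm_nonneg P
  have hQ := norm_nonneg Q
  have hD := norm_nonneg (P - Q)
  have h2 : ‖Q‖ ≤ ‖P‖ + ‖P - Q‖ := by
    have := (abs_le.mp h1).1
    linarith
  have h3 : |‖P‖ ^ 2 - ‖Q‖ ^ 2| = |‖P‖ - ‖Q‖| * (‖P‖ + ‖Q‖) := by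
    rw [show ‖P‖ ^ 2 - ‖Q‖ ^ 2 = (‖P‖ - ‖Q‖) * (‖P‖ + ‖Q‖) by ring, abs_mul,
      abs_of_nonneg (add_nonneg hP hQ)]
  have h4 : |‖P‖ - ‖Q‖| * (‖P‖ + ‖Q‖) ≤ ‖P - Q‖ * (2 * ‖P‖ + ‖P - Q‖) :=
    mul_le_mul h1 (by linarith) (by positivity) hD
  have h5 : 2 * ‖P‖ * ‖P - Q‖ ≤ ε * ‖P‖ ^ 2 + 1 / ε * ‖P - Q‖ ^ 2 := by
    have h6 : 0 ≤ (ε * ‖P‖ - ‖P - Q‖) ^ 2 := sq_nonneg _
    have h7 : ε * ‖P‖ ^ 2 + 1 / ε * ‖P - Q‖ ^ 2 - 2 * ‖P‖ * ‖P - Q‖
        = (ε * ‖P‖ - ‖P - Q‖) ^ 2 / ε := by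
      field_simp
      ring
    have h8 : 0 ≤ (ε * ‖P‖ - ‖P - Q‖) ^ 2 / ε := div_nonneg h6 hε.le
    linarith
  nlinarith

theorem st_IDN (hA : ST_IDA) (hB : ST_IDB) (hC : ST_IDC) : ST_IDN := by
  intro d σ M θ L f gam hD G w ν hν
  obtain ⟨B, hB0, hBG⟩ : ∃ B : ℝ, 0 ≤ B ∧ ∀ v : List (Fin d), v.length = w → ‖G v‖ ≤ B := by
    have hfin : {v : List (Fin d) | v.length = w}.Finite := List.finite_length_eq _ _
    obtain ⟨B, hB⟩ := (hfin.image (fun v => ‖G v‖)).bddAbove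
    refine ⟨max B 0, le_max_right _ _, fun v hv => ?_⟩
    exact (hB ⟨v, hv, rfl⟩).trans (le_max_left _ _)
  obtain ⟨a⟩ : Nonempty (Fin d) := by
    by_contra h
    rw [not_nonempty_iff] at h
    have := hD.fsum
    simp at this
  refine ⟨B ^ 2 * (1 + 2 * w), ?_⟩
  intro k N φ Φ hΦ
  have hΦ0 : 0 ≤ Φ := (norm_nonneg _).trans (hΦ 0)
  have hθ1 := hD.one_lt
  have hθ0 : 0 < θ := by linarith
  have hθk : 0 < θ ^ k := pow_pos hθ0 k
  have hθk1 : 1 ≤ θ ^ k := one_le_pow₀ hθ1.le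
  have tA := (hA d σ G w ν hν a N φ).comp (tendsto_add_atTop_nat k)
  have tC := hC d σ M θ L f gam hD G w a k N φ
  have tN := (tA.sub tC).norm
  set ε : ℝ := (Real.sqrt (θ ^ k))⁻¹ with hε
  have hsq : 0 < Real.sqrt (θ ^ k) := Real.sqrt_pos.mpr hθk
  have hε0 : 0 < ε := inv_pos.mpr hsq
  have hsq1 : 1 ≤ Real.sqrt (θ ^ k) := by
    rw [Real.one_le_sqrt]; exact hθk1
  have hε1 : ε ≤ 1 := inv_le_one_of_one_le₀ hsq1
  have hε2 : (θ ^ k)⁻¹ = ε ^ 2 := by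
    rw [hε, inv_pow, Real.sq_sqrt hθk.le]
  -- lengths
  have hlen : ∀ m, ((T σ m a).length : ℝ) = ∑ b, (((M ^ m) b a : ℤ) : ℝ) := by
    intro m
    have := length_T hD.cntM m a
    have h2 : (((T σ m a).length : ℤ) : ℝ) = ((ell M m a : ℤ) : ℝ) := by rw [← this]
    rw [ell] at h2
    push_cast at h2
    exact_mod_cast h2
  have hlim : Tendsto (fun m : ℕ => ((T σ m a).length : ℝ) / θ ^ m) atTop (𝓝 (L a)) := by
    have h1 : Tendsto (fun m : ℕ => ∑ b, (((M ^ m) b a : ℤ) : ℝ) / θ ^ m) atTop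
        (𝓝 (∑ b, f b * L a)) := tendsto_finsetSum _ fun b _ => hD.lim a b
    have h2 : ∑ b, f b * L a = L a := by
      rw [← Finset.sum_mul, hD.fsum, one_mul]
    rw [h2] at h1
    refine h1.congr fun m => ?_
    rw [hlen m, Finset.sum_div]
  have hLa : 0 < L a := hD.Lpos a
  have hratio : Tendsto (fun m : ℕ => ((T σ m a).length : ℝ) / ((T σ (m + k) a).length : ℝ)) atTop
      (𝓝 ((θ ^ k)⁻¹)) := by
    have h1 := hlim.div (hlim.comp (tendsto_add_atTop_nat k)) hLa.ne'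
    have h2 := h1.mul_const ((θ ^ k)⁻¹)
    rw [div_self hLa.ne', one_mul] at h2
    refine h2.congr fun m => ?_
    simp only [Function.comp_apply, Pi.div_apply]
    rw [pow_add]
    have h3 : θ ^ m ≠ 0 := (pow_pos hθ0 m).ne'
    by_cases h4 : ((T σ (m + k) a).length : ℝ) = 0
    · rw [h4]; simp
    · field_simp
  have tR : Tendsto (fun m : ℕ => Φ * (ε * B ^ 2 + (1 / ε + 1) * (w * B ^ 2) *
      (((T σ m a).length : ℝ) / ((T σ (m + k) a).length : ℝ)))) atTop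
      (𝓝 (Φ * (ε * B ^ 2 + (1 / ε + 1) * (w * B ^ 2) * (θ ^ k)⁻¹))) :=
    (tendsto_const_nhds.add (hratio.const_mul _)).const_mul _
  have hle : ∀ m : ℕ, ‖((fun m : ℕ => (∫ ω, tp N φ ω * ((‖Ek σ G w m a ω‖ ^ 2 : ℝ) : ℂ)
        ∂AddCircle.haarAddCircle) / (((T σ m a).length : ℕ) : ℂ)) ∘ fun m => m + k) m -
      (∫ ω, tp N φ ω * ((‖WS (fun c => zc ω ^ (T σ k c).length)
        (fun c => Ek σ G w k c ω) (T σ m a)‖ ^ 2 : ℝ) : ℂ)
        ∂AddCircle.haarAddCircle) / (((T σ (m + k) a).length : ℕ) : ℂ)‖ ≤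
      Φ * (ε * B ^ 2 + (1 / ε + 1) * (w * B ^ 2) *
      (((T σ m a).length : ℝ) / ((T σ (m + k) a).length : ℝ))) := by
    intro m
    simp only [Function.comp_apply]
    rw [← sub_div, norm_div]
    obtain ⟨hb1, -⟩ := hB d (T σ k) G w B hB0 hBG (T σ m a)
    obtain ⟨-, hb2⟩ := hB d (T σ k) G w B hB0 hBG (T σ (m + k) a)
    rw [← T_add σ m k a] at hb1
    set P : AddCircle (1 : ℝ) → ℂ := fun ω => Ek σ G w (m + k) a ω with hP
    set Q : AddCircle (1 : ℝ) → ℂ := fun ω => WS (fun c => zc ω ^ (T σ k c).length)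
        (fun c => Ek σ G w k c ω) (T σ m a) with hQ
    have hPc : Continuous P := by
      rw [hP]; exact idn_TS_cont G w _
    have hQc : Continuous Q := by
      rw [hQ]
      exact idn_WS_cont (fun ω c => zc ω ^ (T σ k c).length) (fun ω c => Ek σ G w k c ω)
        (fun c => idn_zc_cont.pow _) (fun c => idn_TS_cont G w _) _
    have hb1' : ∫ ω, ‖P ω - Q ω‖ ^ 2 ∂AddCircle.haarAddCircle ≤ w * B ^ 2 * (T σ m a).length := hb1
    have hb2' : ∫ ω, ‖P ω‖ ^ 2 ∂AddCircle.haarAddCircle ≤ B ^ 2 * (T σ (m + k) a).length := hb2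
    have htp := idn_tp_cont N φ
    have e1 : (∫ ω, tp N φ ω * ((‖P ω‖ ^ 2 : ℝ) : ℂ) ∂AddCircle.haarAddCircle) -
        (∫ ω, tp N φ ω * ((‖Q ω‖ ^ 2 : ℝ) : ℂ) ∂AddCircle.haarAddCircle)
        = ∫ ω, tp N φ ω * ((‖P ω‖ ^ 2 - ‖Q ω‖ ^ 2 : ℝ) : ℂ) ∂AddCircle.haarAddCircle := by
      rw [← integral_sub]
      · congr 1
        funext ω
        push_cast
        ring
      · apply idn_int
        exact htp.mul (Complex.continuous_ofReal.comp (hPc.norm.pow 2))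
      · apply idn_int
        exact htp.mul (Complex.continuous_ofReal.comp (hQc.norm.pow 2))
    have e2 : ‖∫ ω, tp N φ ω * ((‖P ω‖ ^ 2 - ‖Q ω‖ ^ 2 : ℝ) : ℂ) ∂AddCircle.haarAddCircle‖ ≤
        ∫ ω, Φ * (ε * ‖P ω‖ ^ 2 + (1 / ε + 1) * ‖P ω - Q ω‖ ^ 2) ∂AddCircle.haarAddCircle := by
      refine (norm_integral_le_integral_norm _).trans ?_
      refine integral_mono ?_ ?_ ?_
      · apply idn_int
        exact (htp.mul (Complex.continuous_ofReal.comp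
          ((hPc.norm.pow 2).sub (hQc.norm.pow 2)))).norm
      · apply idn_int
        exact continuous_const.mul ((continuous_const.mul (hPc.norm.pow 2)).add
          (continuous_const.mul ((hPc.sub hQc).norm.pow 2)))
      · intro ω
        simp only
        rw [norm_mul, Complex.norm_real, Real.norm_eq_abs]
        exact mul_le_mul (hΦ ω) (idn_point _ _ ε hε0) (abs_nonneg _) hΦ0
    have e3 : ∫ ω, Φ * (ε * ‖P ω‖ ^ 2 + (1 / ε + 1) * ‖P ω - Q ω‖ ^ 2) ∂AddCircle.haarAddCircle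
        = Φ * (ε * ∫ ω, ‖P ω‖ ^ 2 ∂AddCircle.haarAddCircle +
          (1 / ε + 1) * ∫ ω, ‖P ω - Q ω‖ ^ 2 ∂AddCircle.haarAddCircle) := by
      rw [integral_const_mul, integral_add, integral_const_mul, integral_const_mul]
      · apply idn_int
        exact continuous_const.mul (hPc.norm.pow 2)
      · apply idn_int
        exact continuous_const.mul ((hPc.sub hQc).norm.pow 2)
    have e4 : Φ * (ε * ∫ ω, ‖P ω‖ ^ 2 ∂AddCircle.haarAddCircle +
          (1 / ε + 1) * ∫ ω, ‖P ω - Q ω‖ ^ 2 ∂AddCircle.haarAddCircle) ≤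
        Φ * (ε * (B ^ 2 * (T σ (m + k) a).length) +
          (1 / ε + 1) * (w * B ^ 2 * (T σ m a).length)) := by
      gcongr
    have hnum : ‖(∫ ω, tp N φ ω * ((‖P ω‖ ^ 2 : ℝ) : ℂ) ∂AddCircle.haarAddCircle) -
        (∫ ω, tp N φ ω * ((‖Q ω‖ ^ 2 : ℝ) : ℂ) ∂AddCircle.haarAddCircle)‖ ≤
        Φ * (ε * (B ^ 2 * (T σ (m + k) a).length) +
          (1 / ε + 1) * (w * B ^ 2 * (T σ m a).length)) := by
      rw [e1]
      exact (e2.trans_eq e3).trans e4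
    have hnn : ‖(((T σ (m + k) a).length : ℕ) : ℂ)‖ = ((T σ (m + k) a).length : ℝ) := by
      simp
    rw [hnn]
    by_cases h0 : ((T σ (m + k) a).length : ℝ) = 0
    · rw [h0, div_zero]
      positivity
    · have hpos : 0 < ((T σ (m + k) a).length : ℝ) :=
        lt_of_le_of_ne (Nat.cast_nonneg _) (Ne.symm h0)
      rw [div_le_iff₀ hpos]
      refine hnum.trans (le_of_eq ?_)
      field_simp
  have hfin := le_of_tendsto_of_tendsto' tN tR hle
  refine hfin.trans ?_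
  rw [hε2, div_eq_mul_inv (B ^ 2 * (1 + 2 * (w : ℝ)) * Φ) (Real.sqrt (θ ^ k)), ← hε]
  have h1 : (1 / ε + 1) * (w * B ^ 2) * ε ^ 2 = w * B ^ 2 * (ε + ε ^ 2) := by
    field_simp
  rw [h1]
  have h2 : ε ^ 2 ≤ ε := by nlinarith
  have h3 : 0 ≤ (w : ℝ) * B ^ 2 := by positivity
  calc Φ * (ε * B ^ 2 + w * B ^ 2 * (ε + ε ^ 2)) ≤ Φ * (ε * B ^ 2 + w * B ^ 2 * (ε + ε)) := by
        gcongr
    _ = B ^ 2 * (1 + 2 * w) * Φ * ε := by ring

end Pool.Agent.Helper97.FS
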